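import Pool.Agent.Q187.Cube.Final

/-!
# MP_416390_gt, Q1: the answer is negative, already for `(k, n) = (3, 7)`

Among the three-dimensional subspaces `H` of `ℝ^7`, those for which all edges of the projected cube
have the same length satisfy `F(H)² ≤ 31.4`, but some `H` has `F(H)² > 31.4`.  Hence no maximizer of
`F` for `(k, n) = (3, 7)` has `|P_H e_1| = ... = |P_H e_7|`.

Proof.  Let `v_i = P_H e_i ∈ ℝ³`.  Then `F(H) = ∑ |det (v_a, v_b, v_c)|` over the 35 triples, and
`∑ det² = 1`, `∑_{S ∋ i} det_S² = |v_i|²`.  For generic vectors the signs of the 35 determinants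
form, up to relabelling and changing signs of the vectors, one of 11 sign patterns (the 11 simple
arrangements of seven lines; the search over the 908 normal forms is checked by the kernel).  For
each of the 11 patterns `ε` a certificate (a multiplier for each of the 140 three- and four-term
Plücker relations and a weight for each of the 35 determinants, after which the quadratic form is
diagonally dominant) shows
`(∑ ε_S p_S)² ≤ 31.4 ∑ p_S² + ∑_i μ_i (7 ∑_{S ∋ i} p_S² - 3 ∑ p_S²) / 1000`, with `μ = 0` for ten of
the patterns.  Non-generic vectors follow by continuity.  The better subspace is spanned by the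
orthogonal vectors `(15, 15, 28, 28, -21, -21, 47)`, `(-21, -21, 15, 15, 5, 5, 0)`,
`(7, -7, 11, -11, -18, 18, 0)`.
-/

set_option autoImplicit false

open MeasureTheory

namespace Pool.Agent.Results.MP_416390_gt.ThreeSeven

section general

variable {E : Type} [NormedAddCommGroup E] [InnerProductSpace ℝ E] [FiniteDimensional ℝ E]

/-- The orthogonal projection `P_H x`. -/
noncomputable def proj (H : Submodule ℝ E) (x : E) : H := H.orthogonalProjectionOnto x

/-- The length `|P_H x|`. -/
noncomputable def projLength (H : Submodule ℝ E) (x : E) : ℝ := ‖proj H x‖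

variable [MeasurableSpace E] [BorelSpace E]

variable (E) in
/-- Lebesgue measure on a Euclidean space: the Haar measure for which the unit cube spanned by an
orthonormal basis has measure one. -/
noncomputable def lebesgue : Measure E := (stdOrthonormalBasis ℝ E).toBasis.addHaar

/-- `vol_k (P_H (C))`, `k = dim H`: the Lebesgue measure, taken inside `H`, of the projection. -/
noncomputable def shadowVolume (C : Set E) (H : Submodule ℝ E) : ℝ :=
  (lebesgue H (proj H '' C)).toReal

end general

/-- The subspaces of `ℝ^n`. -/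
abbrev Sub (n : ℕ) := Submodule ℝ (EuclideanSpace ℝ (Fin n))

/-- The dimension of a subspace. -/
noncomputable def dim {n : ℕ} (H : Sub n) : ℕ := Module.finrank ℝ H

/-- the cube `Q_n = [0,1]^n` -/
def cube (n : ℕ) : Set (EuclideanSpace ℝ (Fin n)) := {x | ∀ i, 0 ≤ x i ∧ x i ≤ 1}

/-- `F(H) = vol_k (P_H (Q_n))`, `k = dim H`. -/
noncomputable def F {n : ℕ} (H : Sub n) : ℝ := shadowVolume (cube n) H

/-- The length `|P_H e_i|`. -/
noncomputable def len {n : ℕ} (H : Sub n) (i : Fin n) : ℝ :=
  projLength H (EuclideanSpace.single i 1)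

/-- All edges of the cube have projections of equal length. -/
def EqualEdges {n : ℕ} (H : Sub n) : Prop := ∀ i j, len H i = len H j

/-- `H` is a maximizer of `F` among the `k`-dimensional subspaces. -/
def IsMaximizer {n : ℕ} (k : ℕ) (H : Sub n) : Prop :=
  dim H = k ∧ ∀ K : Sub n, dim K = k → F K ≤ F H

/-- The statement of Q1: for all `1 ≤ k ≤ n` the maximum is attained at some subspace for which all
edges of the cube have projections of equal length. -/
def Question1 : Prop :=
  ∀ n k : ℕ, 1 ≤ k → k ≤ n → ∃ H : Sub n, IsMaximizer k H ∧ EqualEdges H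

/-- For `(k, n) = (3, 7)`: subspaces with edges of equal length have `F(H)² ≤ 31.4`, and some
subspace has `F(H)² > 31.4`. -/
def Gap : Prop :=
  (∀ H : Sub 7, dim H = 3 → EqualEdges H → F H ^ 2 ≤ 314 / 10) ∧
    ∃ H : Sub 7, dim H = 3 ∧ 314 / 10 < F H ^ 2

/-- For `(k, n) = (3, 7)`: maximizers exist, and no maximizer has edges of equal length. -/
def NegatedForm : Prop :=
  (∃ H : Sub 7, IsMaximizer 3 H) ∧ ∀ H : Sub 7, IsMaximizer 3 H → ¬ EqualEdges H

/-- The answer to Q1 is negative. -/
theorem result : Gap ∧ NegatedForm ∧ ¬ Question1 := by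
  have h1 : ∀ H : Sub 7, dim H = 3 → EqualEdges H → F H ^ 2 ≤ 314 / 10 :=
    fun H hH h => Q187.Cube.upper hH h
  have h2 : ∃ H : Sub 7, dim H = 3 ∧ 314 / 10 < F H ^ 2 := Q187.Cube.exists_better
  have h3 : ∃ H : Sub 7, IsMaximizer 3 H := Q187.Cube.exists_max
  have h4 : ∀ H : Sub 7, IsMaximizer 3 H → ¬ EqualEdges H := by
    intro H hH hc
    obtain ⟨K, hK, hlt⟩ := h2
    have h5 := h1 H hH.1 hc
    have h6 := hH.2 K hK
    have h7 : 0 ≤ F K := Q187.Cube.F_nonneg
    have h8 : F K ^ 2 ≤ F H ^ 2 := pow_le_pow_left₀ h7 h6 2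
    linarith
  refine ⟨⟨h1, h2⟩, ⟨h3, h4⟩, fun hQ => ?_⟩
  obtain ⟨H, hH, heq⟩ := hQ 7 3 (by norm_num) (by norm_num)
  exact h4 H hH heq

end Pool.Agent.Results.MP_416390_gt.ThreeSeven
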